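import Pool.Agent.Helper46.PowGame.Defs

/-!
# The activation strategy for the marking game
-/

set_option autoImplicit false

namespace Pool.Agent.Helper46.PowGame

open Set

section

variable {V : Type} [Finite V]

open Classical in
/-- the position with marked set `M`, active set `A`, recorded targets `tgt` -/
structure Inv (Out R : V → Set V) (M A : Set V) (tgt : V → Option V) (e : Option V) : Prop where
  sub : M ⊆ A
  count : ∀ y, {w | w ∈ A ∧ tgt w = some y}.ncard ≤
    ({y} ∩ A).ncard + ({y} ∩ M).ncard + (if e = some y then 1 else 0)
  target : ∀ w ∈ A, ∀ v ∈ Out w, v ∉ M → ∃ y ∈ R v, tgt w = some y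

theorem Inv.pend {Out R : V → Set V} {M A : Set V} {tgt : V → Option V}
    (h : Inv Out R M A tgt none) (x : V) : Inv Out R M A tgt (some x) where
  sub := h.sub
  count y := by
    have := h.count y
    simp only [reduceCtorEq, if_false, add_zero] at this
    exact this.trans (Nat.le_add_right _ _)
  target := h.target

/-- In a position satisfying the invariant, few active vertices point to an unmarked vertex. -/
theorem Inv.back_le {Out R : V → Set V} {M A : Set V} {tgt : V → Option V} {e : Option V}
    (h : Inv Out R M A tgt e) (v : V) (hv : v ∉ M) (he : ∀ y, e = some y → y ∉ M) :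
    {w | w ∈ A ∧ v ∈ Out w}.ncard ≤ 2 * (R v).ncard := by
  classical
  have hfin : (R v).Finite := toFinite _
  have hsub : {w | w ∈ A ∧ v ∈ Out w} ⊆ ⋃ y ∈ hfin.toFinset, {w | w ∈ A ∧ tgt w = some y} := by
    rintro w ⟨hw, hvw⟩
    obtain ⟨y, hy, ht⟩ := h.target w hw v hvw hv
    simp only [mem_iUnion]
    exact ⟨y, by simpa using hy, hw, ht⟩
  have h2 : ∀ y, {w | w ∈ A ∧ tgt w = some y}.ncard ≤ 2 := by
    intro y
    have h1 := h.count y
    have hA : ({y} ∩ A : Set V).ncard ≤ 1 :=
      (ncard_le_ncard inter_subset_left (toFinite _)).trans (ncard_singleton y).le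
    have hM : ({y} ∩ M : Set V).ncard ≤ 1 :=
      (ncard_le_ncard inter_subset_left (toFinite _)).trans (ncard_singleton y).le
    split_ifs at h1 with hey
    · have : ({y} ∩ M : Set V) = ∅ := by
        rw [← disjoint_iff_inter_eq_empty, disjoint_singleton_left]
        exact he y hey
      rw [this, ncard_empty] at h1
      omega
    · omega
  calc {w | w ∈ A ∧ v ∈ Out w}.ncard
      ≤ (⋃ y ∈ hfin.toFinset, {w | w ∈ A ∧ tgt w = some y}).ncard :=
        ncard_le_ncard hsub (toFinite _)
    _ ≤ ∑ y ∈ hfin.toFinset, {w | w ∈ A ∧ tgt w = some y}.ncard := by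
        exact Finset.set_ncard_biUnion_le _ _
    _ ≤ ∑ _y ∈ hfin.toFinset, 2 := Finset.sum_le_sum fun y _ => h2 y
    _ = 2 * (R v).ncard := by
        rw [Finset.sum_const, smul_eq_mul, mul_comm, ncard_eq_toFinset_card _ hfin]

end

section

variable {V : Type} [Finite V] (H : SimpleGraph V) (Out R : V → Set V) (χ : V → Set V → V)
  (a b : ℕ)

/-- The back-degree bound. -/
theorem back_bound {Out R : V → Set V} {a b : ℕ} {H : SimpleGraph V}
    (hcov : ∀ u v, H.Adj u v → v ∈ Out u ∨ u ∈ Out v)
    (ha : ∀ v, (Out v).ncard ≤ a) (hb : ∀ v, (R v).ncard ≤ b)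
    {M A : Set V} {tgt : V → Option V} {e : Option V}
    (h : Inv Out R M A tgt e) (v : V) (hv : v ∉ M) (he : ∀ y, e = some y → y ∉ M) :
    1 + {u | u ∈ M ∧ H.Adj v u}.ncard ≤ 1 + a + 2 * b := by
  have hsub : {u | u ∈ M ∧ H.Adj v u} ⊆ Out v ∪ {w | w ∈ A ∧ v ∈ Out w} := by
    rintro u ⟨hu, huv⟩
    rcases hcov v u huv with h' | h'
    · exact Or.inl h'
    · exact Or.inr ⟨h.sub hu, h'⟩
  have h1 := ncard_le_ncard hsub (toFinite _)
  have h2 := ncard_union_le (Out v) {w | w ∈ A ∧ v ∈ Out w}
  have h3 := h.back_le v hv he
  have h4 := ha v
  have h5 := hb v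
  omega

/-- The chain: from a pending position Alice finds a vertex to mark. -/
theorem chain {Out R : V → Set V} {χ : V → Set V → V} {a b : ℕ} {H : SimpleGraph V}
    (hcov : ∀ u v, H.Adj u v → v ∈ Out u ∨ u ∈ Out v)
    (hχ : ∀ w M, (∃ v ∈ Out w, v ∉ M) → χ w M ∉ M)
    (hR : ∀ w M v, v ∈ Out w → v ∉ M → χ w M ∈ R v)
    (ha : ∀ v, (Out v).ncard ≤ a) (hb : ∀ v, (R v).ncard ≤ b)
    (M : Set V) : ∀ (n : ℕ) (A : Set V) (tgt : V → Option V) (x : V), x ∉ M → Aᶜ.ncard ≤ n →
    Inv Out R M A tgt (some x) →
    ∃ (z : V) (A' : Set V) (tgt' : V → Option V), z ∉ M ∧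
      1 + {u | u ∈ M ∧ H.Adj z u}.ncard ≤ 1 + a + 2 * b ∧ Inv Out R (insert z M) A' tgt' none := by
  classical
  intro n
  induction n with
  | zero =>
    intro A tgt x hx hA hinv
    -- everything is active
    have hAu : A = univ := by
      have : Aᶜ = ∅ := by
        rw [← ncard_eq_zero (toFinite _)]; omega
      rwa [compl_empty_iff] at this
    refine ⟨x, A, tgt, hx, back_bound hcov ha hb hinv x hx (by rintro y hy; cases hy; exact hx),
      ?_, ?_, ?_⟩
    · rw [hAu]; exact subset_univ _
    · intro y
      have := hinv.count y
      simp only [reduceCtorEq, if_false, add_zero]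
      by_cases hy : x = y
      · subst hy
        rw [if_pos rfl] at this
        have h1 : ({x} ∩ M : Set V) = ∅ := by
          rw [← disjoint_iff_inter_eq_empty, disjoint_singleton_left]; exact hx
        have h2 : ({x} ∩ insert x M : Set V) = {x} := by
          ext z; simp +contextual
        rw [h1, ncard_empty] at this
        rw [h2, ncard_singleton]
        omega
      · rw [if_neg (by simpa using hy)] at this
        refine this.trans ?_
        have : ({y} ∩ M : Set V).ncard ≤ ({y} ∩ insert x M : Set V).ncard :=
          ncard_le_ncard (inter_subset_inter_right _ (subset_insert _ _)) (toFinite _)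
        omega
    · intro w hw v hv hvM
      exact hinv.target w hw v hv fun h => hvM (mem_insert_of_mem _ h)
  | succ n ih =>
    intro A tgt x hx hA hinv
    by_cases hxA : x ∈ A
    · -- `x` is active: mark it
      refine ⟨x, A, tgt, hx, back_bound hcov ha hb hinv x hx (by rintro y hy; cases hy; exact hx),
        ?_, ?_, ?_⟩
      · exact insert_subset hxA hinv.sub
      · intro y
        have := hinv.count y
        simp only [reduceCtorEq, if_false, add_zero]
        by_cases hy : x = y
        · subst hy
          rw [if_pos rfl] at this
          have h1 : ({x} ∩ M : Set V) = ∅ := by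
            rw [← disjoint_iff_inter_eq_empty, disjoint_singleton_left]; exact hx
          have h2 : ({x} ∩ insert x M : Set V) = {x} := by
            ext z; simp +contextual
          rw [h1, ncard_empty] at this
          rw [h2, ncard_singleton]
          omega
        · rw [if_neg (by simpa using hy)] at this
          refine this.trans ?_
          have : ({y} ∩ M : Set V).ncard ≤ ({y} ∩ insert x M : Set V).ncard :=
            ncard_le_ncard (inter_subset_inter_right _ (subset_insert _ _)) (toFinite _)
          omega
      · intro w hw v hv hvM
        exact hinv.target w hw v hv fun h => hvM (mem_insert_of_mem _ h)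
    · -- `x` is inactive: activate it
      have hcompl : (insert x A)ᶜ.ncard ≤ n := by
        have h1 : (insert x A)ᶜ ⊂ Aᶜ := by
          refine ⟨compl_subset_compl.2 (subset_insert _ _), fun h => ?_⟩
          exact (h hxA : x ∈ (insert x A)ᶜ) (mem_insert _ _)
        have := ncard_lt_ncard h1 (toFinite _)
        omega
      by_cases hout : ∃ v ∈ Out x, v ∉ M
      · -- continue the chain at `χ x M`
        set tgt' : V → Option V := Function.update tgt x (some (χ x M)) with htgt'
        have hy : χ x M ∉ M := hχ x M hout
        refine ih (insert x A) tgt' (χ x M) hy hcompl ⟨?_, ?_, ?_⟩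
        · exact hinv.sub.trans (subset_insert _ _)
        · intro y
          have hc := hinv.count y
          have hsub : {w | w ∈ insert x A ∧ tgt' w = some y} ⊆
              {w | w ∈ A ∧ tgt w = some y} ∪ (if χ x M = y then {x} else ∅) := by
            rintro w ⟨hw, hwy⟩
            by_cases hwx : w = x
            · subst hwx
              rw [htgt', Function.update_self] at hwy
              right
              rw [if_pos (Option.some.inj hwy)]
              exact mem_singleton _
            · left
              rw [htgt', Function.update_of_ne hwx] at hwy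
              exact ⟨hw.resolve_left hwx, hwy⟩
          have h1 := (ncard_le_ncard hsub (toFinite _)).trans (ncard_union_le _ _)
          have hA1 : ({y} ∩ A : Set V).ncard ≤ ({y} ∩ insert x A : Set V).ncard :=
            ncard_le_ncard (inter_subset_inter_right _ (subset_insert _ _)) (toFinite _)
          have h2 : (if χ x M = y then ({x} : Set V) else ∅).ncard =
              (if (some (χ x M) : Option V) = some y then 1 else 0) := by
            split_ifs with h3 h4 h4
            · exact ncard_singleton _
            · simp at h4; exact absurd h3 h4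
            · simp at h4; exact absurd h4 h3
            · exact ncard_empty _
          by_cases hxy : x = y
          · subst hxy
            have h3 : ({x} ∩ A : Set V) = ∅ := by
              rw [← disjoint_iff_inter_eq_empty, disjoint_singleton_left]; exact hxA
            have h4 : ({x} ∩ insert x A : Set V) = {x} := by
              ext z; simp +contextual
            rw [if_pos rfl, h3, ncard_empty] at hc
            rw [h4, ncard_singleton]
            omega
          · rw [if_neg (by simpa using hxy)] at hc
            omega
        · intro w hw v hv hvM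
          by_cases hwx : w = x
          · subst hwx
            exact ⟨χ w M, hR w M v hv hvM, by rw [htgt', Function.update_self]⟩
          · obtain ⟨y, hy, ht⟩ := hinv.target w (hw.resolve_left hwx) v hv hvM
            exact ⟨y, hy, by rw [htgt', Function.update_of_ne hwx]; exact ht⟩
      · -- no unmarked out-neighbour: mark `x`
        push Not at hout
        set tgt' : V → Option V := Function.update tgt x none with htgt'
        have hcount : ∀ y, {w | w ∈ insert x A ∧ tgt' w = some y}.ncard ≤
            ({y} ∩ insert x A : Set V).ncard + ({y} ∩ M : Set V).ncard := by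
          intro y
          have hc := hinv.count y
          have hsub : {w | w ∈ insert x A ∧ tgt' w = some y} ⊆ {w | w ∈ A ∧ tgt w = some y} := by
            rintro w ⟨hw, hwy⟩
            by_cases hwx : w = x
            · subst hwx
              rw [htgt', Function.update_self] at hwy
              exact absurd hwy (by simp)
            · rw [htgt', Function.update_of_ne hwx] at hwy
              exact ⟨hw.resolve_left hwx, hwy⟩
          have h1 := ncard_le_ncard hsub (toFinite _)
          have hA1 : ({y} ∩ A : Set V).ncard ≤ ({y} ∩ insert x A : Set V).ncard :=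
            ncard_le_ncard (inter_subset_inter_right _ (subset_insert _ _)) (toFinite _)
          by_cases hxy : x = y
          · subst hxy
            have h3 : ({x} ∩ A : Set V) = ∅ := by
              rw [← disjoint_iff_inter_eq_empty, disjoint_singleton_left]; exact hxA
            have h4 : ({x} ∩ insert x A : Set V) = {x} := by
              ext z; simp +contextual
            rw [if_pos rfl, h3, ncard_empty] at hc
            rw [h4, ncard_singleton]
            omega
          · rw [if_neg (by simpa using hxy)] at hc
            omega
        have htarget : ∀ w ∈ insert x A, ∀ v ∈ Out w, v ∉ M → ∃ y ∈ R v, tgt' w = some y := by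
          intro w hw v hv hvM
          by_cases hwx : w = x
          · subst hwx
            exact absurd (hout v hv) hvM
          · obtain ⟨y, hy, ht⟩ := hinv.target w (hw.resolve_left hwx) v hv hvM
            exact ⟨y, hy, by rw [htgt', Function.update_of_ne hwx]; exact ht⟩
        have hinv' : Inv Out R M (insert x A) tgt' none :=
          ⟨hinv.sub.trans (subset_insert _ _), fun y => by simpa using hcount y, htarget⟩
        refine ⟨x, insert x A, tgt', hx,
          back_bound hcov ha hb hinv' x hx (by simp), ?_, ?_, ?_⟩
        · exact insert_subset (mem_insert _ _) (hinv.sub.trans (subset_insert _ _))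
        · intro y
          have hc := hcount y
          have : ({y} ∩ M : Set V).ncard ≤ ({y} ∩ insert x M : Set V).ncard :=
            ncard_le_ncard (inter_subset_inter_right _ (subset_insert _ _)) (toFinite _)
          simp only [reduceCtorEq, if_false, add_zero]
          omega
        · intro w hw v hv hvM
          exact htarget w hw v hv fun h => hvM (mem_insert_of_mem _ h)

/-- After Bob marks a vertex the invariant can be restored up to a pending vertex. -/
theorem bob_move {Out R : V → Set V} {χ : V → Set V → V}
    (hχ : ∀ w M, (∃ v ∈ Out w, v ∉ M) → χ w M ∉ M)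
    (hR : ∀ w M v, v ∈ Out w → v ∉ M → χ w M ∈ R v)
    {M A : Set V} {tgt : V → Option V} (hinv : Inv Out R M A tgt none) (x : V) (hx : x ∉ M)
    (hne : insert x M ≠ univ) :
    ∃ (A' : Set V) (tgt' : V → Option V) (y : V), y ∉ insert x M ∧
      Inv Out R (insert x M) A' tgt' (some y) := by
  classical
  obtain ⟨u, hu⟩ := (ne_univ_iff_exists_notMem _).1 hne
  have hMle : ∀ y, ({y} ∩ M : Set V).ncard ≤ ({y} ∩ insert x M : Set V).ncard := fun y =>
    ncard_le_ncard (inter_subset_inter_right _ (subset_insert _ _)) (toFinite _)
  by_cases hxA : x ∈ A
  · refine ⟨A, tgt, u, hu, Inv.pend ⟨insert_subset hxA hinv.sub, fun y => ?_, ?_⟩ u⟩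
    · have h1 := hinv.count y
      have h2 := hMle y
      simp only [reduceCtorEq, if_false, add_zero] at h1 ⊢
      omega
    · intro w hw v hv hvM
      exact hinv.target w hw v hv fun h => hvM (mem_insert_of_mem _ h)
  · by_cases hout : ∃ v ∈ Out x, v ∉ insert x M
    · set tgt' : V → Option V := Function.update tgt x (some (χ x (insert x M))) with htgt'
      refine ⟨insert x A, tgt', χ x (insert x M), hχ x _ hout,
        insert_subset_insert hinv.sub, ?_, ?_⟩
      · intro y
        have hc := hinv.count y
        have hsub : {w | w ∈ insert x A ∧ tgt' w = some y} ⊆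
            {w | w ∈ A ∧ tgt w = some y} ∪ (if χ x (insert x M) = y then {x} else ∅) := by
          rintro w ⟨hw, hwy⟩
          by_cases hwx : w = x
          · subst hwx
            rw [htgt', Function.update_self] at hwy
            right
            rw [if_pos (Option.some.inj hwy)]
            exact mem_singleton _
          · left
            rw [htgt', Function.update_of_ne hwx] at hwy
            exact ⟨hw.resolve_left hwx, hwy⟩
        have h1 := (ncard_le_ncard hsub (toFinite _)).trans (ncard_union_le _ _)
        have hA1 : ({y} ∩ A : Set V).ncard ≤ ({y} ∩ insert x A : Set V).ncard :=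
          ncard_le_ncard (inter_subset_inter_right _ (subset_insert _ _)) (toFinite _)
        have h2 : (if χ x (insert x M) = y then ({x} : Set V) else ∅).ncard =
            (if (some (χ x (insert x M)) : Option V) = some y then 1 else 0) := by
          split_ifs with h3 h4 h4
          · exact ncard_singleton _
          · simp at h4; exact absurd h3 h4
          · simp at h4; exact absurd h4 h3
          · exact ncard_empty _
        have h3 := hMle y
        simp only [reduceCtorEq, if_false, add_zero] at hc
        omega
      · intro w hw v hv hvM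
        by_cases hwx : w = x
        · subst hwx
          exact ⟨χ w (insert w M), hR w _ v hv hvM, by rw [htgt', Function.update_self]⟩
        · obtain ⟨y, hy, ht⟩ := hinv.target w (hw.resolve_left hwx) v hv
            (fun h => hvM (mem_insert_of_mem _ h))
          exact ⟨y, hy, by rw [htgt', Function.update_of_ne hwx]; exact ht⟩
    · push Not at hout
      set tgt' : V → Option V := Function.update tgt x none with htgt'
      refine ⟨insert x A, tgt', u, hu, Inv.pend ⟨insert_subset_insert hinv.sub, ?_, ?_⟩ u⟩
      · intro y
        have hc := hinv.count y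
        have hsub : {w | w ∈ insert x A ∧ tgt' w = some y} ⊆ {w | w ∈ A ∧ tgt w = some y} := by
          rintro w ⟨hw, hwy⟩
          by_cases hwx : w = x
          · subst hwx
            rw [htgt', Function.update_self] at hwy
            exact absurd hwy (by simp)
          · rw [htgt', Function.update_of_ne hwx] at hwy
            exact ⟨hw.resolve_left hwx, hwy⟩
        have h1 := ncard_le_ncard hsub (toFinite _)
        have hA1 : ({y} ∩ A : Set V).ncard ≤ ({y} ∩ insert x A : Set V).ncard :=
          ncard_le_ncard (inter_subset_inter_right _ (subset_insert _ _)) (toFinite _)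
        have h3 := hMle y
        simp only [reduceCtorEq, if_false, add_zero] at hc ⊢
        omega
      · intro w hw v hv hvM
        by_cases hwx : w = x
        · subst hwx
          exact absurd (hout v hv) hvM
        · obtain ⟨y, hy, ht⟩ := hinv.target w (hw.resolve_left hwx) v hv
            (fun h => hvM (mem_insert_of_mem _ h))
          exact ⟨y, hy, by rw [htgt', Function.update_of_ne hwx]; exact ht⟩

/-- The activation strategy. -/
theorem activation {Out R : V → Set V} {χ : V → Set V → V} {a b : ℕ} {H : SimpleGraph V}
    (hcov : ∀ u v, H.Adj u v → v ∈ Out u ∨ u ∈ Out v)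
    (hχ : ∀ w M, (∃ v ∈ Out w, v ∉ M) → χ w M ∉ M)
    (hR : ∀ w M v, v ∈ Out w → v ∉ M → χ w M ∈ R v)
    (ha : ∀ v, (Out v).ncard ≤ a) (hb : ∀ v, (R v).ncard ≤ b) :
    AliceForces H (1 + a + 2 * b) true ∅ := by
  classical
  have main : ∀ (n : ℕ) (M A : Set V) (tgt : V → Option V), Mᶜ.ncard ≤ n →
      Inv Out R M A tgt none → AliceForces H (1 + a + 2 * b) false M := by
    intro n
    induction n with
    | zero =>
      intro M A tgt hM _
      have : M = univ := by
        have : Mᶜ = ∅ := by
          rw [← ncard_eq_zero (toFinite _)]; omega
        rwa [compl_empty_iff] at this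
      rw [this]
      exact AliceForces.finished _
    | succ n ih =>
      intro M A tgt hM hinv
      refine AliceForces.bob M (fun v hv => back_bound hcov ha hb hinv v hv (by simp)) ?_
      intro v hv
      by_cases hun : insert v M = univ
      · rw [hun]; exact AliceForces.finished _
      · obtain ⟨A', tgt', y, hy, hinv'⟩ := bob_move hχ hR hinv v hv hun
        obtain ⟨z, A'', tgt'', hz, hs, hinv''⟩ :=
          chain (H := H) hcov hχ hR ha hb (insert v M) _ A' tgt' y hy le_rfl hinv'
        refine AliceForces.alice _ z hz hs (ih _ A'' tgt'' ?_ hinv'')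
        have h1 : (insert z (insert v M))ᶜ ⊂ Mᶜ := by
          refine ⟨compl_subset_compl.2 ((subset_insert _ _).trans (subset_insert _ _)),
            fun h => ?_⟩
          exact (h hv : v ∈ (insert z (insert v M))ᶜ) (mem_insert_of_mem _ (mem_insert _ _))
        have := ncard_lt_ncard h1 (toFinite _)
        omega
  by_cases hne : (∅ : Set V) = univ
  · rw [hne]; exact AliceForces.finished _
  · obtain ⟨u, hu⟩ := (ne_univ_iff_exists_notMem _).1 hne
    have h0 : Inv Out R (∅ : Set V) ∅ (fun _ => none) (some u) := by
      refine ⟨Subset.rfl, fun y => ?_, fun w hw => absurd hw (notMem_empty _)⟩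
      have : {w : V | w ∈ (∅ : Set V) ∧ (none : Option V) = some y} = ∅ := by
        ext w; simp
      rw [this, ncard_empty]
      exact Nat.zero_le _
    obtain ⟨z, A'', tgt'', hz, hs, hinv''⟩ :=
      chain (H := H) hcov hχ hR ha hb ∅ _ ∅ (fun _ => none) u hu le_rfl h0
    exact AliceForces.alice _ z hz hs (main _ _ A'' tgt'' le_rfl hinv'')

end

end Pool.Agent.Helper46.PowGame
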