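import Mathlib

/-!
# The marking game on powers of partial `k`-trees
-/

set_option autoImplicit false

namespace Pool.Agent.Helper46.PowGame

/-- `AliceForces H s alice M`: in the marking game on `H`, from the position in which the set of
marked vertices is `M` and it is Alice's turn (`alice = true`) or Bob's turn (`alice = false`),
Alice can guarantee that every vertex marked from now on has back-degree at most `s - 1`
(i.e. `1 +` its back-degree is at most `s`). -/
inductive AliceForces {V : Type} (H : SimpleGraph V) (s : ℕ) : Bool → Set V → Prop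
  | finished (t : Bool) : AliceForces H s t Set.univ
  | alice (M : Set V) (v : V) (hv : v ∉ M) (hs : 1 + {u | u ∈ M ∧ H.Adj v u}.ncard ≤ s)
      (next : AliceForces H s false (insert v M)) : AliceForces H s true M
  | bob (M : Set V) (hs : ∀ v, v ∉ M → 1 + {u | u ∈ M ∧ H.Adj v u}.ncard ≤ s)
      (next : ∀ v, v ∉ M → AliceForces H s true (insert v M)) : AliceForces H s false M

/-- The game colouring number. -/
noncomputable def gameCol {V : Type} (H : SimpleGraph V) : ℕ :=
  sInf {s : ℕ | AliceForces H s true ∅}

/-- The `m`-th power of `G`: distinct vertices at distance at most `m` are adjacent. -/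
def power {V : Type} (G : SimpleGraph V) (m : ℕ) : SimpleGraph V where
  Adj u v := u ≠ v ∧ ∃ p : G.Walk u v, p.length ≤ m
  symm := ⟨fun _ _ h => ⟨h.1.symm, by
    obtain ⟨p, hp⟩ := h.2
    exact ⟨p.reverse, by rwa [SimpleGraph.Walk.length_reverse]⟩⟩⟩
  loopless := ⟨fun _ h => h.1 rfl⟩

/-- `H` is a `k`-tree on `0, …, N-1` whose vertices can be added in this order: the first `k+1`
vertices form a clique, and every later vertex is adjacent to exactly `k` earlier ones, which
form a clique. -/
def IsKTree (k N : ℕ) (H : SimpleGraph (Fin N)) : Prop :=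
  k < N ∧ ∀ i : Fin N, H.IsClique {j | j < i ∧ H.Adj i j} ∧
    {j | j < i ∧ H.Adj i j}.ncard = min (i : ℕ) k

/-- A partial `k`-tree: a subgraph of a `k`-tree. -/
def IsPartialKTree (k : ℕ) {V : Type} (G : SimpleGraph V) : Prop :=
  ∃ (N : ℕ) (H : SimpleGraph (Fin N)) (f : V ↪ Fin N), IsKTree k N H ∧
    ∀ u v : V, G.Adj u v → H.Adj (f u) (f v)

/-- `f k m Δ`: the supremum of the game colouring numbers of `G ^ m` over all finite partial
`k`-trees `G` of maximum degree at most `Δ`. -/
noncomputable def f (k m Δ : ℕ) : ℕ∞ :=
  ⨆ (n : ℕ) (G : SimpleGraph (Fin n))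
    (_ : IsPartialKTree k G ∧ ∀ v, (G.neighborSet v).ncard ≤ Δ), (gameCol (power G m) : ℕ∞)

end Pool.Agent.Helper46.PowGame
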