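import Pool.Agent.Helper46.PowGame.Upper

/-!
# Lower bound and conclusion
-/

set_option autoImplicit false

namespace Pool.Agent.Helper46.PowGame

open Set

/-- In a complete graph the last vertex sees all others. -/
theorem complete_bound {V : Type} [Finite V] {H : SimpleGraph V} (hH : ∀ u v, u ≠ v → H.Adj u v)
    {s : ℕ} {t : Bool} {M : Set V} (h : AliceForces H s t M) (hM : M ≠ univ) :
    Nat.card V ≤ s := by
  have key : ∀ (M : Set V) (v : V), v ∉ M → insert v M = univ →
      1 + {u | u ∈ M ∧ H.Adj v u}.ncard ≤ s → Nat.card V ≤ s := by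
    intro M v hv hun hs
    have h1 : {u | u ∈ M ∧ H.Adj v u} = M := by
      ext u
      simp only [mem_ofPred_eq]
      exact ⟨fun h => h.1, fun hu => ⟨hu, hH v u fun h => hv (h ▸ hu)⟩⟩
    rw [h1] at hs
    have h2 : (insert v M).ncard = M.ncard + 1 := ncard_insert_of_notMem hv (toFinite _)
    rw [hun, ncard_univ] at h2
    omega
  induction h with
  | finished t => exact absurd rfl hM
  | alice M v hv hs _ ih =>
    by_cases hun : insert v M = univ
    · exact key M v hv hun hs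
    · exact ih hun
  | bob M hs _ ih =>
    obtain ⟨v, hv⟩ := (ne_univ_iff_exists_notMem _).1 hM
    by_cases hun : insert v M = univ
    · exact key M v hv hun (hs v hv)
    · exact ih v hv hun

/-- the heap-ordered `d`-ary tree on the natural numbers -/
def treeAdj (d a b : ℕ) : Prop := (0 < a ∧ (a - 1) / d = b) ∨ (0 < b ∧ (b - 1) / d = a)

theorem parent_lt {d a : ℕ} (ha : 0 < a) : (a - 1) / d < a :=
  lt_of_le_of_lt (Nat.div_le_self _ _) (by omega)

theorem treeAdj_symm {d a b : ℕ} (h : treeAdj d a b) : treeAdj d b a := h.symm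

theorem treeAdj_ne {d a b : ℕ} (h : treeAdj d a b) : a ≠ b := by
  rintro rfl
  rcases h with ⟨h1, h2⟩ | ⟨h1, h2⟩
  · exact absurd h2 (parent_lt h1).ne
  · exact absurd h2 (parent_lt h1).ne

/-- the first `n` vertices of the heap-ordered `d`-ary tree -/
def tree (d n : ℕ) : SimpleGraph (Fin n) where
  Adj a b := treeAdj d a b
  symm := ⟨fun _ _ h => treeAdj_symm h⟩
  loopless := ⟨fun _ h => treeAdj_ne h rfl⟩

/-- a `k`-tree containing it: `k - 1` universal vertices followed by the tree -/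
def host (d k n : ℕ) : SimpleGraph (Fin n) where
  Adj a b := a ≠ b ∧ ((a : ℕ) < k ∨ (b : ℕ) < k ∨ treeAdj d (a - k) (b - k))
  symm := ⟨fun _ _ h => ⟨h.1.symm, by
    rcases h.2 with h | h | h
    · exact Or.inr (Or.inl h)
    · exact Or.inl h
    · exact Or.inr (Or.inr (treeAdj_symm h))⟩⟩
  loopless := ⟨fun _ h => h.1 rfl⟩

theorem ncard_lt {n c : ℕ} (h : c ≤ n) : {j : Fin n | (j : ℕ) < c}.ncard = c := by
  have : {j : Fin n | (j : ℕ) < c} = (Fin.castLE h) '' univ := by
    ext j
    simp only [mem_ofPred_eq, image_univ, mem_range]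
    constructor
    · intro hj
      exact ⟨⟨j, hj⟩, rfl⟩
    · rintro ⟨i, rfl⟩
      exact i.2
  rw [this, ncard_image_of_injective _ (Fin.castLE_injective h), ncard_univ, Nat.card_fin]

theorem host_isKTree (d k n : ℕ) (hn : k + 1 < n) : IsKTree (k + 1) n (host d k n) := by
  refine ⟨hn, fun i => ?_⟩
  by_cases hi : (i : ℕ) ≤ k
  · -- all earlier vertices are neighbours
    have hset : {j | j < i ∧ (host d k n).Adj i j} = {j : Fin n | (j : ℕ) < i} := by
      ext j
      simp only [mem_ofPred_eq]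
      constructor
      · exact fun h => h.1
      · intro hj
        exact ⟨hj, fun h => by rw [h] at hj; exact lt_irrefl _ hj, Or.inr (Or.inl (by omega))⟩
    rw [hset, ncard_lt i.2.le]
    refine ⟨fun a ha b hb hab => ?_, by omega⟩
    have ha' : (a : ℕ) < i := ha
    exact ⟨hab, Or.inl (by omega)⟩
  · push Not at hi
    obtain ⟨q, hq⟩ : ∃ q : ℕ, q = ((i : ℕ) - k - 1) / d := ⟨_, rfl⟩
    have hpar : q + k < i := by
      have := parent_lt (d := d) (a := (i : ℕ) - k) (by omega)
      omega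
    have hlt := i.2
    set p : Fin n := ⟨q + k, by omega⟩ with hp
    have hset : {j | j < i ∧ (host d k n).Adj i j} = insert p {j : Fin n | (j : ℕ) < k} := by
      ext j
      simp only [mem_ofPred_eq, mem_insert_iff]
      constructor
      · rintro ⟨hj, hne, h | h | h | h⟩
        · omega
        · exact Or.inr h
        · by_cases hjk : (j : ℕ) < k
          · exact Or.inr hjk
          · left
            apply Fin.ext
            simp only [hp]
            omega
        · have := parent_lt (d := d) h.1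
          have hj' : (j : ℕ) < i := hj
          omega
      · rintro (rfl | h)
        · refine ⟨hpar, fun h => ?_, Or.inr (Or.inr (Or.inl ⟨by omega, ?_⟩))⟩
          · have := congrArg Fin.val h
            simp only [hp] at this
            omega
          · simp only [hp]
            omega
        · refine ⟨?_, fun h' => ?_, Or.inr (Or.inl h)⟩
          · change (j : ℕ) < i
            omega
          · rw [← h'] at h
            omega
    rw [hset]
    constructor
    · rintro a (rfl | ha) b (rfl | hb) hab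
      · exact absurd rfl hab
      · exact ⟨hab, Or.inr (Or.inl hb)⟩
      · exact ⟨hab, Or.inl ha⟩
      · exact ⟨hab, Or.inl ha⟩
    · rw [ncard_insert_of_notMem _ (toFinite _), ncard_lt (by omega)]
      · omega
      · simp only [mem_ofPred_eq, hp]
        omega

theorem tree_isPartialKTree (d k n : ℕ) : IsPartialKTree (k + 1) (tree d n) := by
  refine ⟨n + k + 2, host d k (n + k + 2),
    ⟨fun i => ⟨(i : ℕ) + k, by omega⟩, fun i j h => Fin.ext (by
      have := congrArg Fin.val h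
      simp only at this
      omega)⟩, host_isKTree d k _ (by omega), fun u v h => ⟨fun h' => ?_, Or.inr (Or.inr ?_)⟩⟩
  · have h1 : (u : ℕ) + k = (v : ℕ) + k := congrArg Fin.val h'
    exact treeAdj_ne (show treeAdj d u v from h) (by omega)
  · change treeAdj d ((u : ℕ) + k - k) ((v : ℕ) + k - k)
    rw [Nat.add_sub_cancel, Nat.add_sub_cancel]
    exact h

theorem tree_degree (d n : ℕ) (hd : 0 < d) (v : Fin n) : ((tree d n).neighborSet v).ncard ≤ d + 1 := by
  classical
  have hsub : (tree d n).neighborSet v ⊆ {b : Fin n | (b : ℕ) = (v - 1) / d} ∪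
      {b : Fin n | 0 < (b : ℕ) ∧ ((b : ℕ) - 1) / d = v} := by
    rintro b (⟨h1, h2⟩ | ⟨h1, h2⟩)
    · exact Or.inl h2.symm
    · exact Or.inr ⟨h1, h2⟩
  have h1 : {b : Fin n | (b : ℕ) = (v - 1) / d}.ncard ≤ 1 := by
    rw [ncard_le_one_iff]
    intro a b ha hb
    exact Fin.ext (ha.trans hb.symm)
  have h2 : {b : Fin n | 0 < (b : ℕ) ∧ ((b : ℕ) - 1) / d = v}.ncard ≤ d := by
    have h3 : Set.InjOn (fun b : Fin n => ((b : ℕ) - 1) % d)
        {b : Fin n | 0 < (b : ℕ) ∧ ((b : ℕ) - 1) / d = v} := by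
      rintro a ⟨ha1, ha2⟩ b ⟨hb1, hb2⟩ hab
      have e1 := Nat.div_add_mod ((a : ℕ) - 1) d
      have e2 := Nat.div_add_mod ((b : ℕ) - 1) d
      simp only at hab
      rw [ha2, hab] at e1
      rw [hb2] at e2
      apply Fin.ext
      omega
    have h4 : ((fun b : Fin n => ((b : ℕ) - 1) % d) ''
        {b : Fin n | 0 < (b : ℕ) ∧ ((b : ℕ) - 1) / d = v}) ⊆ ((Finset.range d : Finset ℕ) : Set ℕ) := by
      rintro _ ⟨b, -, rfl⟩
      simp only [Finset.coe_range, mem_Iio]
      exact Nat.mod_lt _ hd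
    have h5 := ncard_le_ncard h4 (toFinite _)
    rw [h3.ncard_image, ncard_coe_finset, Finset.card_range] at h5
    exact h5
  have h3 := (ncard_le_ncard hsub (toFinite _)).trans (ncard_union_le _ _)
  omega

theorem walk_to_root (d n : ℕ) (hn : 0 < n) : ∀ (j : ℕ) (a : Fin n), (a : ℕ) < d ^ j →
    ∃ p : (tree d n).Walk a ⟨0, hn⟩, p.length ≤ j := by
  intro j
  induction j with
  | zero =>
    intro a ha
    have : a = ⟨0, hn⟩ := Fin.ext (by simpa using ha)
    subst this
    exact ⟨SimpleGraph.Walk.nil, le_rfl⟩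
  | succ j ih =>
    intro a ha
    by_cases h0 : (a : ℕ) = 0
    · have : a = ⟨0, hn⟩ := Fin.ext h0
      subst this
      exact ⟨SimpleGraph.Walk.nil, Nat.zero_le _⟩
    · have hlt := parent_lt (d := d) (Nat.pos_of_ne_zero h0)
      have hb : (a - 1 : ℕ) / d < d ^ j := by
        rcases Nat.eq_zero_or_pos d with rfl | hd
        · simp at ha
        · rw [Nat.div_lt_iff_lt_mul hd, ← pow_succ]
          omega
      obtain ⟨p, hp⟩ := ih ⟨(a - 1 : ℕ) / d, hlt.trans a.2⟩ hb
      have hadj : (tree d n).Adj a ⟨(a - 1 : ℕ) / d, hlt.trans a.2⟩ :=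
        Or.inl ⟨Nat.pos_of_ne_zero h0, rfl⟩
      refine ⟨SimpleGraph.Walk.cons hadj p, ?_⟩
      rw [SimpleGraph.Walk.length_cons]
      omega

theorem gameCol_le {V : Type} [Finite V] (G : SimpleGraph V) (k m Δ : ℕ)
    (hG : IsPartialKTree k G) (hΔ : ∀ v, (G.neighborSet v).ncard ≤ Δ) :
    gameCol (power G m) ≤ 1 + (k + 1) ^ m * (Δ + 1) ^ (m / 2) +
      2 * ((k + 1) ^ (3 * m) * (Δ + 1) ^ (m / 2)) :=
  Nat.sInf_le (upper G k m Δ hG hΔ)

theorem le_gameCol (k m d : ℕ) (hd : 0 < d) :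
    d ^ (m / 2) ≤ gameCol (power (tree d (d ^ (m / 2))) m) := by
  have hn : 0 < d ^ (m / 2) := pow_pos hd _
  have hcomp : ∀ u v, u ≠ v → (power (tree d (d ^ (m / 2))) m).Adj u v := by
    intro u v huv
    obtain ⟨p, hp⟩ := walk_to_root d _ hn (m / 2) u u.2
    obtain ⟨q, hq⟩ := walk_to_root d _ hn (m / 2) v v.2
    refine ⟨huv, p.append q.reverse, ?_⟩
    rw [SimpleGraph.Walk.length_append, SimpleGraph.Walk.length_reverse]
    omega
  have hmem : gameCol (power (tree d (d ^ (m / 2))) m) ∈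
      {s : ℕ | AliceForces (power (tree d (d ^ (m / 2))) m) s true ∅} :=
    Nat.sInf_mem ⟨_, upper (tree d (d ^ (m / 2))) (k + 1) m (d + 1)
      (tree_isPartialKTree d k _) (tree_degree d _ hd)⟩
  have hne : (∅ : Set (Fin (d ^ (m / 2)))) ≠ univ := by
    intro h
    have : (⟨0, hn⟩ : Fin (d ^ (m / 2))) ∈ (∅ : Set (Fin (d ^ (m / 2)))) := by
      rw [h]; exact mem_univ _
    exact this
  have := complete_bound hcomp hmem hne
  rwa [Nat.card_fin] at this

theorem main (k m Δ : ℕ) (hk : 1 ≤ k) (hΔ : 1 ≤ Δ) :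
    (Δ : ℕ∞) ^ (m / 2) ≤ 2 ^ (m / 2) * f k m Δ ∧
      f k m Δ ≤ 4 * (k + 1) ^ (3 * m) * 2 ^ (m / 2) * (Δ : ℕ∞) ^ (m / 2) := by
  obtain ⟨k, rfl⟩ := Nat.exists_eq_add_of_le' hk
  constructor
  · -- lower bound
    rcases Nat.lt_or_ge Δ 2 with h2 | h2
    · have hΔ1 : Δ = 1 := by omega
      subst hΔ1
      have h1 : (1 : ℕ∞) ≤ f (k + 1) m 1 := by
        have hle : (gameCol (power (tree 0 1) m) : ℕ∞) ≤ f (k + 1) m 1 := by
          refine le_iSup_of_le 1 (le_iSup_of_le (tree 0 1) (le_iSup_of_le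
            ⟨tree_isPartialKTree 0 k 1, fun v => ?_⟩ le_rfl))
          exact (ncard_le_ncard (subset_univ _) (toFinite _)).trans (by
            rw [ncard_univ, Nat.card_fin])
        refine le_trans ?_ hle
        have hmem : gameCol (power (tree 0 1) m) ∈
            {s : ℕ | AliceForces (power (tree 0 1) m) s true ∅} :=
          Nat.sInf_mem ⟨_, upper (tree 0 1) (k + 1) m 1 (tree_isPartialKTree 0 k _) fun v =>
            (ncard_le_ncard (subset_univ _) (toFinite _)).trans (by
            rw [ncard_univ, Nat.card_fin])⟩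
        have hne : (∅ : Set (Fin 1)) ≠ univ := by
          intro h
          have : (0 : Fin 1) ∈ (∅ : Set (Fin 1)) := by
            rw [h]; exact mem_univ _
          exact this
        have := complete_bound (fun u v h => absurd (Subsingleton.elim u v) h) hmem hne
        rw [Nat.card_fin] at this
        exact_mod_cast this
      rw [Nat.cast_one, one_pow]
      calc (1 : ℕ∞) = 1 * 1 := (one_mul _).symm
        _ ≤ 2 ^ (m / 2) * f (k + 1) m 1 := mul_le_mul' (one_le_pow₀ (by norm_num)) h1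
    · obtain ⟨d, rfl⟩ : ∃ d, Δ = d + 1 := ⟨Δ - 1, by omega⟩
      have hd : 0 < d := by omega
      have hle : (gameCol (power (tree d (d ^ (m / 2))) m) : ℕ∞) ≤ f (k + 1) m (d + 1) :=
        le_iSup_of_le _ (le_iSup_of_le (tree d (d ^ (m / 2))) (le_iSup_of_le
            ⟨tree_isPartialKTree d k _, tree_degree d _ hd⟩ le_rfl))
      have h1 : ((d ^ (m / 2) : ℕ) : ℕ∞) ≤ f (k + 1) m (d + 1) :=
        le_trans (by exact_mod_cast le_gameCol k m d hd) hle
      have h3 : (d + 1) ^ (m / 2) ≤ 2 ^ (m / 2) * d ^ (m / 2) := by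
        rw [← mul_pow]
        exact Nat.pow_le_pow_left (by omega) _
      calc ((d + 1 : ℕ) : ℕ∞) ^ (m / 2) = (((d + 1) ^ (m / 2) : ℕ) : ℕ∞) := by push_cast; rfl
        _ ≤ ((2 ^ (m / 2) * d ^ (m / 2) : ℕ) : ℕ∞) := by exact_mod_cast h3
        _ = 2 ^ (m / 2) * ((d ^ (m / 2) : ℕ) : ℕ∞) := by push_cast; rfl
        _ ≤ 2 ^ (m / 2) * f (k + 1) m (d + 1) := mul_le_mul' le_rfl h1
  · -- upper bound
    refine iSup_le fun n => iSup_le fun G => iSup_le fun hG => ?_
    have h1 := gameCol_le G (k + 1) m Δ hG.1 hG.2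
    have h2 : (Δ + 1) ^ (m / 2) ≤ 2 ^ (m / 2) * Δ ^ (m / 2) := by
      rw [← mul_pow]
      exact Nat.pow_le_pow_left (by omega) _
    have h3 : (k + 1 + 1) ^ m ≤ (k + 1 + 1) ^ (3 * m) := Nat.pow_le_pow_right (by omega) (by omega)
    have h4 : 1 ≤ (k + 1 + 1) ^ (3 * m) * (Δ + 1) ^ (m / 2) :=
      Nat.one_le_iff_ne_zero.2 (by positivity)
    have h5 : gameCol (power G m) ≤ 4 * (k + 1 + 1) ^ (3 * m) * 2 ^ (m / 2) * Δ ^ (m / 2) := by
      calc gameCol (power G m) ≤ 1 + (k + 1 + 1) ^ m * (Δ + 1) ^ (m / 2) +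
            2 * ((k + 1 + 1) ^ (3 * m) * (Δ + 1) ^ (m / 2)) := h1
        _ ≤ (k + 1 + 1) ^ (3 * m) * (Δ + 1) ^ (m / 2) +
            (k + 1 + 1) ^ (3 * m) * (Δ + 1) ^ (m / 2) +
            2 * ((k + 1 + 1) ^ (3 * m) * (Δ + 1) ^ (m / 2)) := by
            have := Nat.mul_le_mul_right ((Δ + 1) ^ (m / 2)) h3
            omega
        _ = 4 * ((k + 1 + 1) ^ (3 * m) * (Δ + 1) ^ (m / 2)) := by ring
        _ ≤ 4 * ((k + 1 + 1) ^ (3 * m) * (2 ^ (m / 2) * Δ ^ (m / 2))) := by
            exact Nat.mul_le_mul_left _ (Nat.mul_le_mul_left _ h2)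
        _ = _ := by ring
    calc (gameCol (power G m) : ℕ∞)
        ≤ ((4 * (k + 1 + 1) ^ (3 * m) * 2 ^ (m / 2) * Δ ^ (m / 2) : ℕ) : ℕ∞) := by
          exact_mod_cast h5
      _ = _ := by push_cast; rfl

end Pool.Agent.Helper46.PowGame
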