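import Pool.Agent.Helper46.PowGame.Activation

/-!
# Upper bound
-/

set_option autoImplicit false

namespace Pool.Agent.Helper46.PowGame

open Set

/-! ## Descending walks in a `k`-tree -/

/-- `x` is reachable from `v` by a descending walk of length at most `r`. -/
def Desc {N : ℕ} (H : SimpleGraph (Fin N)) : ℕ → Fin N → Fin N → Prop
  | 0, v, x => v = x
  | r + 1, v, x => Desc H r v x ∨ ∃ u, u < v ∧ H.Adj v u ∧ Desc H r u x

theorem Desc.mono {N : ℕ} {H : SimpleGraph (Fin N)} {r s : ℕ} (hrs : r ≤ s) {v x : Fin N}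
    (h : Desc H r v x) : Desc H s v x := by
  obtain ⟨d, rfl⟩ := Nat.exists_eq_add_of_le hrs
  induction d with
  | zero => exact h
  | succ d ih => exact Or.inl (ih (Nat.le_add_right _ _))

theorem Desc.le {N : ℕ} {H : SimpleGraph (Fin N)} {r : ℕ} : ∀ {v x : Fin N}, Desc H r v x →
    x ≤ v := by
  induction r with
  | zero => intro v x h; exact (h : v = x).ge
  | succ r ih =>
    rintro v x (h | ⟨u, hu, -, h⟩)
    · exact ih h
    · exact (ih h).trans hu.le

theorem Desc.card {k N : ℕ} {H : SimpleGraph (Fin N)}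
    (hH : ∀ i : Fin N, {j | j < i ∧ H.Adj i j}.ncard ≤ k) (r : ℕ) (v : Fin N) :
    {x | Desc H r v x}.ncard ≤ (k + 1) ^ r := by
  classical
  induction r generalizing v with
  | zero =>
    have : {x | Desc H 0 v x} = {v} := by
      ext x; simp [Desc, eq_comm]
    rw [this, ncard_singleton, pow_zero]
  | succ r ih =>
    set P : Set (Fin N) := {j | j < v ∧ H.Adj v j} with hP
    have hfin : P.Finite := toFinite _
    have hsub : {x | Desc H (r + 1) v x} ⊆
        {x | Desc H r v x} ∪ ⋃ u ∈ hfin.toFinset, {x | Desc H r u x} := by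
      rintro x (h | ⟨u, hu, huv, h⟩)
      · exact Or.inl h
      · right
        simp only [mem_iUnion]
        exact ⟨u, by simp [hP, hu, huv], h⟩
    calc {x | Desc H (r + 1) v x}.ncard
        ≤ ({x | Desc H r v x} ∪ ⋃ u ∈ hfin.toFinset, {x | Desc H r u x}).ncard :=
          ncard_le_ncard hsub (toFinite _)
      _ ≤ {x | Desc H r v x}.ncard + (⋃ u ∈ hfin.toFinset, {x | Desc H r u x}).ncard :=
          ncard_union_le _ _
      _ ≤ (k + 1) ^ r + ∑ u ∈ hfin.toFinset, {x | Desc H r u x}.ncard :=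
          Nat.add_le_add (ih v) (Finset.set_ncard_biUnion_le _ _)
      _ ≤ (k + 1) ^ r + ∑ _u ∈ hfin.toFinset, (k + 1) ^ r :=
          Nat.add_le_add le_rfl (Finset.sum_le_sum fun u _ => ih u)
      _ ≤ (k + 1) ^ r + k * (k + 1) ^ r := by
          rw [Finset.sum_const, smul_eq_mul, ← ncard_eq_toFinset_card _ hfin]
          exact Nat.add_le_add le_rfl (Nat.mul_le_mul_right _ (hH v))
      _ = (k + 1) ^ (r + 1) := by ring

/-- The shortcut lemma. -/
theorem Desc.step {N : ℕ} {H : SimpleGraph (Fin N)}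
    (hH : ∀ i : Fin N, H.IsClique {j | j < i ∧ H.Adj i j}) (r : ℕ) :
    ∀ {v w x : Fin N}, H.Adj v w → x ≤ v → Desc H r w x → Desc H (r + 1) v x := by
  induction r with
  | zero =>
    intro v w x hvw hxv h
    have : w = x := h
    subst this
    rcases hxv.lt_or_eq with h' | h'
    · exact Or.inr ⟨w, h', hvw, rfl⟩
    · exact Or.inl h'.symm
  | succ r ih =>
    intro v w x hvw hxv h
    rcases lt_trichotomy w v with hlt | heq | hgt
    · exact Or.inr ⟨w, hlt, hvw, h⟩
    · exact absurd heq hvw.ne'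
    · rcases h with h | ⟨u, hu, huw, h⟩
      · exact (ih hvw hxv h).mono (Nat.le_succ _)
      · by_cases huv : u = v
        · subst huv
          exact h.mono (by omega)
        · have hadj : H.Adj v u := hH w ⟨hgt, hvw.symm⟩ ⟨hu, huw⟩ (Ne.symm huv)
          exact (ih hadj hxv h).mono (Nat.le_succ _)

/-! ## Walks in a partial `k`-tree -/

/-- There is a walk in `G` of length at most `i` from `w` to `x` all of whose vertices are
at least `x` in the order given by `φ`. -/
def Up {V : Type} (G : SimpleGraph V) {N : ℕ} (φ : V ↪ Fin N) (i : ℕ) (w x : V) : Prop :=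
  ∃ p : G.Walk w x, p.length ≤ i ∧ ∀ y ∈ p.support, φ x ≤ φ y

theorem Up.desc {V : Type} {G : SimpleGraph V} {N : ℕ} {φ : V ↪ Fin N}
    {H : SimpleGraph (Fin N)} (hH : ∀ i : Fin N, H.IsClique {j | j < i ∧ H.Adj i j})
    (hφ : ∀ u v : V, G.Adj u v → H.Adj (φ u) (φ v)) {i : ℕ} {w x : V} (h : Up G φ i w x) :
    Desc H i (φ w) (φ x) := by
  obtain ⟨p, hp, hs⟩ := h
  refine Desc.mono hp ?_
  clear hp
  induction p with
  | nil => exact rfl
  | cons hadj q ih =>
    rw [SimpleGraph.Walk.length_cons]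
    refine Desc.step hH _ (hφ _ _ hadj) (hs _ (SimpleGraph.Walk.start_mem_support _)) ?_
    exact ih fun y hy => hs y (by rw [SimpleGraph.Walk.support_cons]; exact List.mem_cons_of_mem _ hy)

theorem Up.card {V : Type} [Finite V] {G : SimpleGraph V} {k N : ℕ} {φ : V ↪ Fin N}
    {H : SimpleGraph (Fin N)} (hH : ∀ i : Fin N, H.IsClique {j | j < i ∧ H.Adj i j})
    (hk : ∀ i : Fin N, {j | j < i ∧ H.Adj i j}.ncard ≤ k)
    (hφ : ∀ u v : V, G.Adj u v → H.Adj (φ u) (φ v)) (i : ℕ) (w : V) :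
    {x | Up G φ i w x}.ncard ≤ (k + 1) ^ i := by
  have h1 : (φ '' {x | Up G φ i w x}) ⊆ {x | Desc H i (φ w) x} := by
    rintro _ ⟨x, hx, rfl⟩
    exact Up.desc hH hφ hx
  have h2 := ncard_le_ncard h1 (toFinite _)
  rw [ncard_image_of_injective _ φ.injective] at h2
  exact h2.trans (Desc.card hk i (φ w))

/-- The ball of radius `j` around `x` in a graph of maximum degree at most `Δ`. -/
theorem ball_card {V : Type} [Finite V] {G : SimpleGraph V} {Δ : ℕ}
    (hΔ : ∀ v, (G.neighborSet v).ncard ≤ Δ) (j : ℕ) (x : V) :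
    {u | ∃ p : G.Walk u x, p.length ≤ j}.ncard ≤ (Δ + 1) ^ j := by
  classical
  induction j generalizing x with
  | zero =>
    have : {u | ∃ p : G.Walk u x, p.length ≤ 0} = {x} := by
      ext u
      simp only [mem_ofPred_eq, mem_singleton_iff]
      constructor
      · rintro ⟨p, hp⟩
        exact SimpleGraph.Walk.eq_of_length_eq_zero (Nat.le_zero.1 hp)
      · rintro rfl
        exact ⟨SimpleGraph.Walk.nil, le_rfl⟩
    rw [this, ncard_singleton, pow_zero]
  | succ j ih =>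
    have hfin : (G.neighborSet x).Finite := toFinite _
    have hsub : {u | ∃ p : G.Walk u x, p.length ≤ j + 1} ⊆
        {u | ∃ p : G.Walk u x, p.length ≤ j} ∪
          ⋃ y ∈ hfin.toFinset, {u | ∃ p : G.Walk u y, p.length ≤ j} := by
      rintro u ⟨p, hp⟩
      rcases hq : p.reverse with _ | ⟨hadj, q⟩
      · left
        exact ⟨SimpleGraph.Walk.nil, Nat.zero_le _⟩
      · right
        simp only [mem_iUnion]
        refine ⟨_, by simpa using hadj, q.reverse, ?_⟩
        have h1 : p.reverse.length = q.length + 1 := by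
          rw [hq, SimpleGraph.Walk.length_cons]
        rw [SimpleGraph.Walk.length_reverse] at h1 ⊢
        omega
    calc {u | ∃ p : G.Walk u x, p.length ≤ j + 1}.ncard
        ≤ _ := ncard_le_ncard hsub (toFinite _)
      _ ≤ _ := ncard_union_le _ _
      _ ≤ (Δ + 1) ^ j + ∑ y ∈ hfin.toFinset, {u | ∃ p : G.Walk u y, p.length ≤ j}.ncard :=
          Nat.add_le_add (ih x) (Finset.set_ncard_biUnion_le _ _)
      _ ≤ (Δ + 1) ^ j + ∑ _y ∈ hfin.toFinset, (Δ + 1) ^ j :=
          Nat.add_le_add le_rfl (Finset.sum_le_sum fun u _ => ih u)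
      _ ≤ (Δ + 1) ^ j + Δ * (Δ + 1) ^ j := by
          rw [Finset.sum_const, smul_eq_mul, ← ncard_eq_toFinset_card _ hfin]
          exact Nat.add_le_add le_rfl (Nat.mul_le_mul_right _ (hΔ x))
      _ = (Δ + 1) ^ (j + 1) := by ring

/-- The set of vertices near some `x` which is weakly reachable from `v`. -/
def Reach {V : Type} (G : SimpleGraph V) {N : ℕ} (φ : V ↪ Fin N) (r q : ℕ) (v : V) : Set V :=
  {u | ∃ x, Up G φ r v x ∧ Up G φ q u x}

theorem reach_card {V : Type} [Finite V] {G : SimpleGraph V} {k N Δ : ℕ} {φ : V ↪ Fin N}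
    {H : SimpleGraph (Fin N)} (hH : ∀ i : Fin N, H.IsClique {j | j < i ∧ H.Adj i j})
    (hk : ∀ i : Fin N, {j | j < i ∧ H.Adj i j}.ncard ≤ k)
    (hφ : ∀ u v : V, G.Adj u v → H.Adj (φ u) (φ v))
    (hΔ : ∀ v, (G.neighborSet v).ncard ≤ Δ) (r q : ℕ) (v : V) :
    (Reach G φ r q v).ncard ≤ (k + 1) ^ r * (Δ + 1) ^ q := by
  classical
  have hfin : {x | Up G φ r v x}.Finite := toFinite _
  have hsub : Reach G φ r q v ⊆
      ⋃ x ∈ hfin.toFinset, {u | ∃ p : G.Walk u x, p.length ≤ q} := by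
    rintro u ⟨x, hx, p, hp, -⟩
    simp only [mem_iUnion]
    exact ⟨x, by simpa using hx, p, hp⟩
  calc (Reach G φ r q v).ncard
      ≤ _ := ncard_le_ncard hsub (toFinite _)
    _ ≤ ∑ x ∈ hfin.toFinset, {u | ∃ p : G.Walk u x, p.length ≤ q}.ncard :=
        Finset.set_ncard_biUnion_le _ _
    _ ≤ ∑ _x ∈ hfin.toFinset, (Δ + 1) ^ q := Finset.sum_le_sum fun x _ => ball_card hΔ q x
    _ = {x | Up G φ r v x}.ncard * (Δ + 1) ^ q := by
        rw [Finset.sum_const, smul_eq_mul, ← ncard_eq_toFinset_card _ hfin]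
    _ ≤ (k + 1) ^ r * (Δ + 1) ^ q := Nat.mul_le_mul_right _ (Up.card hH hk hφ r v)

/-- `u` is an out-neighbour of `w` with apex `x`. -/
def OutVia {V : Type} (G : SimpleGraph V) {N : ℕ} (φ : V ↪ Fin N) (m : ℕ) (w u x : V) : Prop :=
  Up G φ m w x ∧ Up G φ (m / 2) u x

theorem exists_apex {V : Type} {G : SimpleGraph V} {N : ℕ} (φ : V ↪ Fin N) {w u : V}
    (p : G.Walk w u) : ∃ (x : V) (i j : ℕ), i + j = p.length ∧ Up G φ i w x ∧ Up G φ j u x := by
  classical
  obtain ⟨x, hx, hmin⟩ := p.support.toFinset.exists_min_image φ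
    ⟨w, by simp⟩
  rw [List.mem_toFinset] at hx
  refine ⟨x, (p.takeUntil x hx).length, (p.dropUntil x hx).length, ?_, ?_, ?_⟩
  · conv_rhs => rw [← p.take_spec hx]
    rw [SimpleGraph.Walk.length_append]
  · exact ⟨p.takeUntil x hx, le_rfl, fun y hy =>
      hmin y (List.mem_toFinset.2 (p.support_takeUntil_subset_support hx hy))⟩
  · refine ⟨(p.dropUntil x hx).reverse, by rw [SimpleGraph.Walk.length_reverse], fun y hy => ?_⟩
    rw [SimpleGraph.Walk.support_reverse, List.mem_reverse] at hy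
    exact hmin y (List.mem_toFinset.2 (p.support_dropUntil_subset_support hx hy))

theorem Up.mono {V : Type} {G : SimpleGraph V} {N : ℕ} {φ : V ↪ Fin N} {i j : ℕ} (hij : i ≤ j)
    {w x : V} (h : Up G φ i w x) : Up G φ j w x := by
  obtain ⟨p, hp, hs⟩ := h
  exact ⟨p, hp.trans hij, hs⟩

theorem upper {V : Type} [Finite V] (G : SimpleGraph V) (k m Δ : ℕ) (hG : IsPartialKTree k G)
    (hΔ : ∀ v, (G.neighborSet v).ncard ≤ Δ) :
    AliceForces (power G m)
      (1 + (k + 1) ^ m * (Δ + 1) ^ (m / 2) + 2 * ((k + 1) ^ (3 * m) * (Δ + 1) ^ (m / 2)))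
      true ∅ := by
  classical
  obtain ⟨N, H, φ, ⟨-, hH⟩, hφ⟩ := hG
  have hH1 : ∀ i : Fin N, H.IsClique {j | j < i ∧ H.Adj i j} := fun i => (hH i).1
  have hk : ∀ i : Fin N, {j | j < i ∧ H.Adj i j}.ncard ≤ k := fun i => by
    rw [(hH i).2]; exact min_le_right _ _
  -- the choice rule: an unmarked out-neighbour with least apex
  have hchoice : ∀ (w : V) (M : Set V), ∃ y : V,
      (∃ v ∈ Reach G φ m (m / 2) w, v ∉ M) → y ∉ M ∧
        ∃ x, OutVia G φ m w y x ∧ ∀ v x', v ∉ M → OutVia G φ m w v x' → φ x ≤ φ x' := by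
    intro w M
    by_cases h : ∃ v ∈ Reach G φ m (m / 2) w, v ∉ M
    · obtain ⟨v, ⟨x, hx1, hx2⟩, hv⟩ := h
      let S : Set V := {x | ∃ v, v ∉ M ∧ OutVia G φ m w v x}
      have hS : S.Nonempty := ⟨x, v, hv, hx1, hx2⟩
      obtain ⟨x₀, hx₀, hmin⟩ := (toFinite S).exists_minimalFor φ S hS
      obtain ⟨y, hy, hy'⟩ := hx₀
      refine ⟨y, fun _ => ⟨hy, x₀, hy', fun v x' hv' hvx' => ?_⟩⟩
      have hx' : x' ∈ S := ⟨v, hv', hvx'⟩
      rcases le_total (φ x₀) (φ x') with h' | h'
      · exact h'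
      · exact hmin hx' h'
    · exact ⟨w, fun h' => absurd h' h⟩
  choose χ hχ using hchoice
  refine activation (Out := Reach G φ m (m / 2)) (R := Reach G φ (3 * m) (m / 2)) (χ := χ)
    ?_ ?_ ?_ (fun v => reach_card hH1 hk hφ hΔ m (m / 2) v)
    (fun v => reach_card hH1 hk hφ hΔ (3 * m) (m / 2) v)
  · -- every edge of the power is covered
    rintro u v ⟨-, p, hp⟩
    obtain ⟨x, i, j, hij, h1, h2⟩ := exists_apex φ p
    rcases le_total j i with h | h
    · exact Or.inl ⟨x, h1.mono (by omega), h2.mono (by omega)⟩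
    · exact Or.inr ⟨x, h2.mono (by omega), h1.mono (by omega)⟩
  · intro w M h
    exact (hχ w M h).1
  · -- targets
    rintro w M v hv hvM
    obtain ⟨-, x, ⟨hx1, hx2⟩, hmin⟩ := hχ w M ⟨v, hv, hvM⟩
    obtain ⟨xv, hv1, hv2⟩ := hv
    have hle : φ x ≤ φ xv := hmin v xv hvM ⟨hv1, hv2⟩
    refine ⟨x, ?_, hx2⟩
    obtain ⟨p1, hp1, hs1⟩ := hv1
    obtain ⟨p2, hp2, hs2⟩ := hv2
    obtain ⟨p3, hp3, hs3⟩ := hx1
    refine ⟨p2.append (p1.reverse.append p3), ?_, ?_⟩
    · rw [SimpleGraph.Walk.length_append, SimpleGraph.Walk.length_append,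
        SimpleGraph.Walk.length_reverse]
      omega
    · intro y hy
      rw [SimpleGraph.Walk.mem_support_append_iff, SimpleGraph.Walk.mem_support_append_iff,
        SimpleGraph.Walk.support_reverse, List.mem_reverse] at hy
      rcases hy with hy | hy | hy
      · exact hle.trans (hs2 y hy)
      · exact hle.trans (hs1 y hy)
      · exact hs3 y hy

end Pool.Agent.Helper46.PowGame
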